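import Mathlib
import Pool.Agent.MP_b50e26_gt.Compact
import Pool.Agent.MP_b50e26_gt.Example

/-! An infinite compact `T1` space with a positive refinement expansive continuous bijection. -/

set_option autoImplicit false

namespace Pool.Agent.Results.MP_b50e26_gt.Bijection

open Pool.Agent.MP_b50e26_gt

theorem result : ∃ (X : Type) (_ : TopologicalSpace X), T1Space X ∧ CompactSpace X ∧ Infinite X ∧
    ∃ f : X → X, Continuous f ∧ Function.Bijective f ∧ PosRefExp f :=
  ⟨Y, inferInstance, inferInstance, compact_of_exp sh_exp, inferInstance, sh, sh_cont, sh_bij,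
    sh_exp⟩

end Pool.Agent.Results.MP_b50e26_gt.Bijection
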