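import Mathlib
import Pool.Agent.MP_b50e26_gt.Nil.Defs
import Pool.Agent.MP_b50e26_gt.Nil.Main

/-! One-sided refinement expansivity for actions of finitely generated finite-by-nilpotent groups
on arbitrary spaces: every half-space of characters contains a non-expansive one. -/

set_option autoImplicit false

namespace Pool.Agent.Results.MP_b50e26_gt.NilpotentHalfSpace

open Pool.Agent.MP_b50e26_gt.Nil

theorem result {G X : Type*} [Group G] [Group.FG G]
    (hG : ∃ n : ℕ, Finite (Subgroup.lowerCentralSeries (⊤ : Subgroup G) n))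
    [TopologicalSpace X] [MulAction G X] [ContinuousConstSMul G X]
    (hX : {x : X | IsClosed ({x} : Set X)}.Infinite) (L : (Additive G →+ ℝ) →ₗ[ℝ] ℝ) :
    ∃ χ : Additive G →+ ℝ, 0 ≤ L χ ∧ ¬ RefExp X {g : G | 0 ≤ χ (Additive.ofMul g)} :=
  main hG hX L

end Pool.Agent.Results.MP_b50e26_gt.NilpotentHalfSpace
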