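import Mathlib
import Pool.Agent.MP_b50e26_gt.Times.Defs
import Pool.Agent.MP_b50e26_gt.Times.Main

/-! The sets of times along which refinement expansivity forces the space to be finite are exactly
the sets of integers that are bounded above or below. -/

set_option autoImplicit false

namespace Pool.Agent.Results.MP_b50e26_gt.TimeSets

open Pool.Agent.MP_b50e26_gt.Times

theorem result (S : Set ℤ) : List.TFAE
    [BddAbove S ∨ BddBelow S,
     ∀ (X : Type) [TopologicalSpace X] [T1Space X] (f : X ≃ₜ X), ExpAlong f S → Finite X,
     ∀ (X : Type) [TopologicalSpace X] [CompactSpace X] [TopologicalSpace.MetrizableSpace X]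
       (f : X ≃ₜ X), ExpAlong f S → Finite X] :=
  main S

end Pool.Agent.Results.MP_b50e26_gt.TimeSets
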